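import Pool.Agent.PST.StmtsU
import Pool.Agent.Helper41_PSS.PRQ

/-!
# Squad PST, block U, row UNC (helper77): `rt(1)` is a unit of the generic fibre
-/

set_option autoImplicit false

open scoped BigOperators TensorProduct PowerSeries

noncomputable section

namespace Pool.Agent.PST.U.H77

open Pool.Agent.PFC (tw IsTv)
open Pool.Agent.PFD.D2b (FrR)
open Pool.Agent.PSS
open Pool.Agent.PSS.S0
open Pool.Agent.PSS.S3
open Pool.Agent.PSS.S3.H41 (fx_one fx_of_comm bq_zero exists_T)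

/-- UNC -/
theorem unc (hFIT : FitStmt) (hZRT : ZrtStmt) (hBQX : BqxStmt) (hBPU : BpuStmt)
    (hGFQ : GfqStmt) (hGFB : GfbStmt) (hMCK : MckStmt) : UncStmt := by
  classical
  intro ℓ _ F F' W E As K _ _ _ _ _ _ _ _ _ _ _ _ ψ γ lam x y hinj hW hE hper0 huni0 hrf0 hEtw
    hidem
  obtain ⟨⟨lamS, hlamS, hrf⟩, hper, huni, -⟩ := hGFB F⟦X⟧ F' W E As K ψ γ lam x y hrf0 hper0 huni0
  have hℓF : (ℓ : F) = 0 := CharP.cast_eq_zero F ℓ
  have hℓX : (ℓ : F⟦X⟧) = 0 := by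
    rw [← map_natCast (PowerSeries.C (R := F)), hℓF, map_zero]
  have hX : algebraMap F⟦X⟧ F' PowerSeries.X ≠ 0 := by
    intro h
    exact PowerSeries.X_ne_zero (hinj (h.trans (map_zero _).symm))
  have hXm : ∀ m : ℕ, algebraMap F⟦X⟧ F' (PowerSeries.X ^ m) ≠ 0 := by
    intro m
    rw [map_pow]
    exact pow_ne_zero _ hX
  have hfin : FiniteDimensional F' (F' ⊗[F⟦X⟧] As) := by
    obtain ⟨Ω, _, _, b, c, hfr, -⟩ := hper
    refine ⟨Submodule.fg_def.2 ⟨Set.range b, Set.finite_range b, ?_⟩⟩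
    rw [eq_top_iff]
    rintro m -
    rw [← hfr.2.2 m]
    exact Submodule.sum_mem _ fun t _ => Submodule.smul_mem _ _ (Submodule.subset_span ⟨t, rfl⟩)
  generalize hr1 : ∑ k, x k * y k = r1
  have hr1c : ∀ c : As, c * r1 = r1 * c := by
    intro c
    have h1 := hZRT F⟦X⟧ W As K γ lam x y hrf0 1 fx_one c
    simp only [mul_one] at h1
    rw [hr1] at h1
    exact h1
  have hrc : ∀ c : F' ⊗[F⟦X⟧] As, (1 : F') ⊗ₜ[F⟦X⟧] r1 * c = c * (1 : F') ⊗ₜ[F⟦X⟧] r1 := by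
    intro c
    have h1 := hZRT F' W (F' ⊗[F⟦X⟧] As) K _ lamS _ _ hrf 1 fx_one c
    simp only [mul_one, Algebra.TensorProduct.tmul_mul_tmul] at h1
    rw [← TensorProduct.tmul_sum, hr1] at h1
    exact h1.symm
  obtain ⟨Bs, _, _, γB, βs, hBs⟩ := hBQX F⟦X⟧ W As γ ⊤
  obtain ⟨D, _, _, γD, βD, hDq⟩ := hBQX F' W (F' ⊗[F⟦X⟧] As) (bcw (R := F⟦X⟧) (S := F') γ) ⊤
  obtain ⟨E1, hE1⟩ : ∃ E1 : Subgroup E, ∀ e, e ∈ E1 ↔ ∀ u ∈ (⊤ : Subgroup W), ψ e u = u :=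
    ⟨{ carrier := {e | ∀ u ∈ (⊤ : Subgroup W), ψ e u = u}
       one_mem' := fun u _ => by rw [map_one]; rfl
       mul_mem' := fun {a b} ha hb u hu => by
         rw [map_mul, MulAut.mul_apply, hb u hu, ha u hu]
       inv_mem' := fun {a} ha u hu => by
         have h1 := ha u hu
         rw [map_inv]
         calc (ψ a)⁻¹ u = (ψ a)⁻¹ (ψ a u) := by rw [h1]
           _ = u := MulAut.inv_apply_self _ (ψ a) u }, fun e => Iff.rfl⟩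
  obtain ⟨-, -, lamB, KB, _, xB, yB, hrfB, hlamB⟩ := hBPU ℓ F⟦X⟧ W E As Bs K ψ γ ⊤ γB βs lam
    x y E1 hℓX hW hper0 huni0 hrf0 hBs hE1
  choose n n' hn1 hn2 hn3 using huni0
  obtain ⟨T, hT1, hT2⟩ := exists_T E1
  have hT3 : ∀ e : E, ∃! t, t ∈ T ∧ ∀ v ∈ (⊤ : Subgroup W), (ψ t)⁻¹ v = (ψ e)⁻¹ v := by
    intro e
    have h1 : ∀ t : E, (∀ v ∈ (⊤ : Subgroup W), (ψ t)⁻¹ v = (ψ e)⁻¹ v) ↔ t * e⁻¹ ∈ E1 := by
      intro t
      rw [hE1]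
      refine forall₂_congr fun v _ => ?_
      rw [map_mul, map_inv, MulAut.mul_apply]
      constructor
      · intro h
        rw [← h, MulAut.apply_inv_self]
      · intro h
        conv_lhs => rw [← h]
        rw [MulAut.inv_apply_self]
    simp only [h1]
    exact hT2 e
  have h1 := hMCK ℓ F⟦X⟧ W E As Bs K KB ψ γ ⊤ γB βs lam x y lamB xB yB n n' T hℓX hW hper0 hrf0
    hBs hrfB hlamB (fun e => ⟨hn1 e, hn2 e, hn3 e⟩) hT3 1 fx_one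
  simp only [mul_one, hn1, hBs.one] at h1
  rw [Finset.sum_const, hr1, hT1] at h1
  obtain ⟨m, u, hu⟩ := hEtw Bs KB γB βs lamB xB yB hBs hrfB hlamB
  generalize ∑ k, xB k * yB k = rB at h1 hu
  obtain ⟨κ, lamD, hκβ, hκs, -, -⟩ :=
    hGFQ ℓ F⟦X⟧ F' W E As Bs D K KB ψ γ lam x y ⊤ γB βs γD βD lamB xB yB hℓX hW hrf0 hper0
      (fun e => ⟨n e, n' e, hn1 e, hn2 e, hn3 e⟩) hBs hDq hrfB hlamB
  have hidx : (E1.index : F') ≠ 0 := by
    rw [Ne, CharP.cast_eq_zero_iff F' ℓ]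
    intro h
    exact hE (h.trans (Subgroup.index_dvd_card E1))
  -- the left inverse
  have h2 : βD ((1 : F') ⊗ₜ[F⟦X⟧] r1) = (E1.index : F') • κ rB := by
    rw [← hκβ r1 (fx_of_comm fun v => hr1c _), h1, map_nsmul, Nat.cast_smul_eq_nsmul]
  have h3 : κ u * κ rB = algebraMap F⟦X⟧ F' (PowerSeries.X ^ m) • (1 : D) := by
    rw [← map_mul, hu, hκs, map_one]
  obtain ⟨l, hl⟩ : ∃ l : D, l * βD ((1 : F') ⊗ₜ[F⟦X⟧] r1) = 1 := by
    refine ⟨((E1.index : F')⁻¹ * (algebraMap F⟦X⟧ F' (PowerSeries.X ^ m))⁻¹) • κ u, ?_⟩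
    rw [h2, smul_mul_smul_comm, h3, smul_smul]
    have h4 : (E1.index : F')⁻¹ * (algebraMap F⟦X⟧ F' (PowerSeries.X ^ m))⁻¹ * (E1.index : F') *
        algebraMap F⟦X⟧ F' (PowerSeries.X ^ m) = 1 := by
      have h5 := hXm m
      field_simp
    rw [h4, one_smul]
  have hrfx : (1 : F') ⊗ₜ[F⟦X⟧] r1 ∈ FxR (cw F' (bcw (R := F⟦X⟧) (S := F') γ)) ⊤ :=
    fx_of_comm fun v => (hrc _).symm
  refine hFIT F' (F' ⊗[F⟦X⟧] As) ((1 : F') ⊗ₜ[F⟦X⟧] r1) hrc ?_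
  rintro f hf1 hf2 ⟨N, hN⟩
  apply hidem f hf1 hf2
  have hffx : f ∈ FxR (cw F' (bcw (R := F⟦X⟧) (S := F') γ)) ⊤ :=
    fx_of_comm fun v => (hf1 _).symm
  have h5' : ∀ N : ℕ, ((1 : F') ⊗ₜ[F⟦X⟧] r1) ^ N ∈
      FxR (cw F' (bcw (R := F⟦X⟧) (S := F') γ)) ⊤ := fun N =>
    fx_of_comm fun v => ((Commute.pow_left (hrc _ : Commute _ _) N).eq).symm
  have h4 : ∀ N : ℕ, βD (((1 : F') ⊗ₜ[F⟦X⟧] r1) ^ N) = βD ((1 : F') ⊗ₜ[F⟦X⟧] r1) ^ N := by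
    intro N
    induction N with
    | zero => rw [pow_zero, pow_zero, hDq.one]
    | succ N ih => rw [pow_succ, hDq.mul _ (h5' N) _ hrfx, ih, pow_succ]
  have h5 : βD ((1 : F') ⊗ₜ[F⟦X⟧] r1) ^ N * βD f = 0 := by
    rw [← h4 N, ← hDq.mul _ (h5' N) _ hffx, hN, bq_zero hDq]
  have h6 : ∀ N : ℕ, l ^ N * βD ((1 : F') ⊗ₜ[F⟦X⟧] r1) ^ N = 1 := by
    intro N
    induction N with
    | zero => rw [pow_zero, pow_zero, one_mul]
    | succ N ih =>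
      rw [pow_succ, pow_succ', mul_assoc, ← mul_assoc l, hl, one_mul, ih]
  have h7 : βD f = 0 := by
    rw [← one_mul (βD f), ← h6 N, mul_assoc, h5, mul_zero]
  exact (hDq.ker f hffx).1 h7

end Pool.Agent.PST.U.H77
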