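import Pool.Agent.PST.StmtsDR
import Pool.Agent.PSS.StmtsS0

/-!
# Squad PST, row DRG (helper77): the regular derivation
-/

set_option autoImplicit false

open scoped BigOperators

noncomputable section

namespace Pool.Agent.PST.H77R

open Pool.Agent.PFC (tw IsTv)
open Pool.Agent.PFD.D2b (FrR)
open Pool.Agent.PSS
open Pool.Agent.PSS.S2 (PrD Nh Cn CV cg_zero)

/-- DRG -/
theorem drg (hEOR : Pool.Agent.PSS.S2.EorStmt) (hSVH : Pool.Agent.PSS.S2.SvhStmt)
    (hCNH : Pool.Agent.PSS.S2.CnhStmt) (hDGX : DgxStmt) (hGXU : GxuStmt) (hYCV : YcvStmt)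
    (hYBR : YbrStmt) (hRTC : Pool.Agent.PSS.RtcStmt) (hBKI : Pool.Agent.PSS.S0.BkiStmt) :
    DrgStmt := by
  classical
  intro F V E A K Ω _ _ _ _ _ _ _ _ _ φ α lam x y b c u₀ W Q r la χ xx t hRF hPr hu hEg hQ
  obtain ⟨e, S, he, -, hst⟩ := hEOR F V E A Ω φ α b c hPr
  have h1 : ∀ l, la l 1 = 0 := by
    intro l
    have h := hEg.add l 1 1
    rw [mul_one] at h
    exact left_eq_add.1 h
  choose H hH using fun l => hSVH F V E Ω φ (la l) e S (hEg.add l) he hst
  have hCn : ∀ l, Cn 0 α (la l) (Nh (H l) b c) := by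
    intro l
    refine hCNH F V A Ω 0 α (la l) (H l) b c hPr.fr (fun u v => (cg_zero _ _).2 (hEg.add l u v))
      (fun v ω => (cg_zero _ _).2 ?_)
    rw [hH l, map_one, h1, add_zero]
  have hX : ∀ l, CV α (Xe α (xx l)) := by
    intro l v
    unfold Xe
    rw [Finset.mul_sum, Finset.sum_mul]
    refine Finset.sum_congr rfl fun w _ => ?_
    rw [mul_smul_comm, smul_mul_assoc, ← map_mul, ← map_mul, mul_comm]
  obtain ⟨Y, hY⟩ : ∃ Y : Fin r → A, Y = fun l =>
      ∑ k, Nh (fun ω => χ l (e ω)⁻¹) b c (x k) * (Xe α (xx l) * y k) := ⟨_, rfl⟩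
  have hYf : ∀ l, Y l ∈ FxR (cw F α) ⊤ := by
    intro l
    rw [hY]
    exact hYCV F V A K Ω α lam x y b c (fun ω => χ l (e ω)⁻¹) (Xe α (xx l)) hRF hPr.fr
      (fun p ω => by rw [he]) (hX l)
  have hz : ∀ a, a * rt x y 1 = rt x y 1 * a :=
    (hRTC F V A K K α lam x y hRF).1 1 fun v => by rw [mul_one, one_mul]
  have hu' : rt x y 1 * u₀ = 1 := by rw [← hz, hu]
  have hc : ∀ a, u₀ * a = a * u₀ := by
    intro a
    calc u₀ * a = u₀ * (a * (rt x y 1 * u₀)) := by rw [hu', mul_one]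
      _ = u₀ * rt x y 1 * a * u₀ := by rw [← mul_assoc a, hz]; simp only [mul_assoc]
      _ = a * u₀ := by rw [hu, one_mul]
  have hcf : ∀ P : Subgroup V, u₀ ∈ FxR (cw F α) P := fun P =>
    mem_cw.2 fun q _ => (hc (α q)).symm
  obtain ⟨G, hG⟩ : ∃ G : A →ₗ[F] A, ∀ a, G a =
      ∑ l, t l • (u₀ * Gx (Xe α (xx l)) x y (Nh (H l) b c) a) := by
    refine ⟨∑ l, t l • (LinearMap.mulLeft F u₀).comp
      (Gx (Xe α (xx l)) x y (Nh (H l) b c)), fun a => ?_⟩
    rw [LinearMap.sum_apply]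
    rfl
  obtain ⟨D, hD⟩ : ∃ D : V → A, ∀ u, D u = ∑ l, (t l * la l u) • (u₀ * Y l) :=
    ⟨_, fun _ => rfl⟩
  refine ⟨G, D, ⟨hEg, hQ, ?_, ?_, ?_, ?_⟩, ?_, ?_⟩
  · intro u v
    rw [hD, hD, hD, ← Finset.sum_add_distrib]
    refine Finset.sum_congr rfl fun l _ => ?_
    rw [hEg.add, mul_add, add_smul]
  · intro w hw
    rw [hD]
    refine Finset.sum_eq_zero fun l _ => ?_
    rw [(hEg.ker w).1 hw l, mul_zero, zero_smul]
  · intro u
    rw [hD]
    refine Submodule.sum_mem _ fun l _ => Submodule.smul_mem _ _ ?_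
    rw [mem_cw]
    intro q hq
    rw [← mul_assoc, ← hc, mul_assoc, (mem_cw.1 (hYf l)) q hq, mul_assoc]
  · intro u
    have h2 : Xe α (pg la xx t u) = ∑ l, (t l * la l u) • (u₀ * (Xe α (xx l) * rt x y 1)) := by
      have h3 : ∀ l, u₀ * (Xe α (xx l) * rt x y 1) = Xe α (xx l) := by
        intro l
        rw [hz, ← mul_assoc, hu, one_mul]
      have h4 : Xe α (pg la xx t u) = ∑ l, (t l * la l u) • Xe α (xx l) := by
        unfold Xe pg
        have h5 : ∀ l, (t l * la l u) • ∑ v, xx l v • α v =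
            ∑ v, (t l * la l u * xx l v) • α v := by
          intro l
          rw [Finset.smul_sum]
          exact Finset.sum_congr rfl fun v _ => smul_smul _ _ _
        rw [Finset.sum_congr rfl fun l _ => h5 l, Finset.sum_comm]
        exact Finset.sum_congr rfl fun v _ => Finset.sum_smul
      rw [h4]
      exact Finset.sum_congr rfl fun l _ => by rw [h3]
    rw [hD, h2, ← Finset.sum_sub_distrib]
    refine Submodule.sum_mem _ fun l _ => ?_
    rw [← smul_sub, ← mul_sub]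
    refine Submodule.smul_mem _ _ ?_
    refine (hBKI F V A α Q u₀ (hcf Q) _ ?_).1
    rw [hY]
    exact hYBR F V E A K Ω φ α lam x y b c e S (χ l) (xx l) Q hRF hPr.fr he hst (hEg.chm l)
      (hEg.ch1 l) (hEg.xe l) (hEg.qs l) hQ
  · intro a a'
    rw [hG, hG, hG, Finset.sum_mul, Finset.mul_sum, ← Finset.sum_add_distrib]
    refine Finset.sum_congr rfl fun l _ => ?_
    rw [hDGX F V A K α lam x y (la l) (Nh (H l) b c) (Xe α (xx l)) hRF (hCn l) (hX l) a a',
      mul_add, smul_add, smul_mul_assoc, mul_smul_comm, ← mul_assoc u₀, ← mul_assoc u₀,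
      ← mul_assoc a, hc a]
  · intro u
    rw [hG, hD, Finset.mul_sum]
    refine Finset.sum_congr rfl fun l _ => ?_
    rw [hGXU F V E A K Ω φ α x y b c (la l) (χ l) (H l) e (Xe α (xx l)) hPr.fr (hEg.add l)
      (hEg.wt l) (hH l) u, mul_smul_comm, smul_smul, mul_smul_comm, ← mul_assoc, hc (α u),
      mul_assoc, hY]

end Pool.Agent.PST.H77R
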