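import Pool.Agent.PST.StmtsDR

/-!
# Squad PST, row DUL (helper77): dual elements in `F Q`
-/

set_option autoImplicit false

open scoped BigOperators

noncomputable section

namespace Pool.Agent.PST.H77D

open Classical in
/-- the pairing of a function, cut off outside of `Q`, with the functions `la n` -/
def Tq {F V : Type} [Field F] [CommGroup V] [Fintype V] (Q : Subgroup V) {r : ℕ}
    (la : Fin r → V → F) : (V → F) →ₗ[F] (Fin r → F) where
  toFun x n := ∑ v, (if v ∈ Q then x v else 0) * la n v
  map_add' x y := by
    funext n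
    change _ = ∑ v, (if v ∈ Q then x v else 0) * la n v + ∑ v, (if v ∈ Q then y v else 0) * la n v
    rw [← Finset.sum_add_distrib]
    refine Finset.sum_congr rfl fun v _ => ?_
    rw [← add_mul]
    split_ifs
    · rfl
    · rw [add_zero]
  map_smul' c x := by
    funext n
    change _ = c * ∑ v, (if v ∈ Q then x v else 0) * la n v
    rw [Finset.mul_sum]
    refine Finset.sum_congr rfl fun v _ => ?_
    rw [← mul_assoc]
    split_ifs
    · rfl
    · rw [mul_zero]

open Classical in
theorem Tq_apply {F V : Type} [Field F] [CommGroup V] [Fintype V] (Q : Subgroup V) {r : ℕ}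
    (la : Fin r → V → F) (x : V → F) (n : Fin r) :
    Tq Q la x n = ∑ v, (if v ∈ Q then x v else 0) * la n v := rfl

/-- DUL -/
theorem dul : DulStmt := by
  classical
  intro F V _ _ _ W Q r la hadd hW hli hQW
  have hsur : LinearMap.range (Tq Q la) = ⊤ := by
    by_contra hne
    obtain ⟨f, hf0, hf⟩ := Submodule.exists_le_ker_of_lt_top _ (lt_top_iff_ne_top.2 hne)
    apply hf0
    have h1 : ∀ q ∈ Q, ∑ n, f (fun j => if n = j then 1 else 0) * la n q = 0 := by
      intro q hq
      have h2 : f (Tq Q la (Pi.single q 1)) = 0 := hf ⟨_, rfl⟩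
      rw [LinearMap.pi_apply_eq_sum_univ f] at h2
      refine Eq.trans (Finset.sum_congr rfl fun n _ => ?_) h2
      rw [Tq_apply, Finset.sum_eq_single q]
      · rw [if_pos hq, Pi.single_eq_same, one_mul, smul_eq_mul, mul_comm]
      · intro v _ hv
        rw [Pi.single_eq_of_ne hv, ite_self, zero_mul]
      · intro h
        exact (h (Finset.mem_univ q)).elim
    have h2 : ∑ n, f (fun j => if n = j then 1 else 0) • la n = 0 := by
      funext v
      obtain ⟨q, hq, w, hw, rfl⟩ := hQW v
      rw [Finset.sum_apply, Pi.zero_apply]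
      refine Eq.trans (Finset.sum_congr rfl fun n _ => ?_) (h1 q hq)
      rw [Pi.smul_apply, smul_eq_mul, hadd, hW n w hw, add_zero]
    have h3 := Fintype.linearIndependent_iff.1 hli _ h2
    apply LinearMap.ext
    intro x
    rw [LinearMap.pi_apply_eq_sum_univ f, LinearMap.zero_apply]
    refine Finset.sum_eq_zero fun n _ => ?_
    rw [h3 n, smul_zero]
  rw [LinearMap.range_eq_top] at hsur
  choose x hx using fun l : Fin r => hsur (fun n => if l = n then 1 else 0)
  refine ⟨fun l v => if v ∈ Q then x l v else 0, fun l v hv => if_neg hv, fun l n => ?_⟩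
  have h1 := congrFun (hx l) n
  rw [Tq_apply] at h1
  exact h1

end Pool.Agent.PST.H77D
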