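import Pool.Agent.PST.StmtsDR

/-!
# Squad PST, row HLF (helper77): lifts of the values `D u` which commute with `V`
-/

set_option autoImplicit false

open scoped BigOperators

noncomputable section

namespace Pool.Agent.PST.H77H

open Pool.Agent.PFD.D2 (Cdv FibG)
open Pool.Agent.PFD.D2b (FrR)
open Pool.Agent.PSS

/-- HLF -/
theorem hlf : HlfStmt := by
  classical
  intro R F V A A₀ κ Ω _ _ cv _ _ _ _ _ _ _ _ _ W f α₀ lam₀ x₀ y₀ b₀ c₀ α lam x y b c D hL hF
    hD hW
  obtain ⟨s, hs⟩ := cv.surj.hasRightInverse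
  have hq : ∀ (r : R) (a : A), f.q (r • a) = cv.κ r • f.q a := by
    intro r a
    rw [Algebra.smul_def, map_mul, f.sc, ← Algebra.smul_def]
  obtain ⟨L, hLd⟩ : ∃ L : A₀ → A, L = fun a => ∑ ω, s (c₀ ω a) • b ω := ⟨_, rfl⟩
  have hLq : ∀ a, f.q (L a) = a := by
    intro a
    rw [hLd]
    change f.q (∑ ω, s (c₀ ω a) • b ω) = a
    rw [map_sum]
    refine Eq.trans (Finset.sum_congr rfl fun ω _ => ?_) (hF.2.2 a)
    rw [hq, hs, hL.qb]
  have hLc : ∀ a ∈ FxR (cw F α₀) ⊤, ∀ v, L a * α v = α v * L a := by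
    intro a ha v
    have h1 : bw R α (v, v) (L a) = L a := by
      rw [hLd]
      change bw R α (v, v) (∑ ω, s (c₀ ω a) • b ω) = ∑ ω, s (c₀ ω a) • b ω
      rw [map_sum]
      refine Fintype.sum_equiv (MulAction.toPerm ((v, v) : V × V)) _ _ fun ω => ?_
      rw [map_smul, ← hL.fr.1]
      have h2 : c₀ (((v, v) : V × V) • ω) a = c₀ ω a := by
        have h3 := hF.2.1 ((v, v) : V × V) ω a
        have h4 : bw F α₀ (v, v) a = a := ha v (Subgroup.mem_top v)
        rw [h4] at h3
        exact h3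
      change _ = s (c₀ (((v, v) : V × V) • ω) a) • b (((v, v) : V × V) • ω)
      rw [h2]
    have h2 : α v * (L a * α v⁻¹) = L a := h1
    calc L a * α v = α v * (L a * α v⁻¹) * α v := by rw [h2]
      _ = α v * L a := by
        rw [mul_assoc, mul_assoc, ← map_mul, inv_mul_cancel, map_one, mul_one]
  refine ⟨fun u => L (D u), fun u v => hLc (D u) (hD u) v, fun u w hw => ?_, fun u => hLq (D u)⟩
  change L (D (u * w)) = L (D u)
  rw [hW u w hw]

end Pool.Agent.PST.H77H
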