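import Pool.Agent.PST.StmtsGR
import Pool.Agent.Helper10_PSS.ADS

/-!
# Squad PST, row ADT (helper77): the class `KT` is admissible
-/

set_option autoImplicit false

namespace Pool.Agent.PST.H77

open Pool.Agent.PSS
open Pool.Agent.PSS.H10 (qr_comm qr_card)

/-- ADT -/
theorem adt (hM : McaStmt) (hL : LstStmt) : AdtStmt := by
  intro ℓ hl
  refine ⟨?_, ?_, ?_, ?_⟩
  · rintro V _ E W ⟨_, _, U, X, h⟩ h0
    apply h.nt
    rw [eq_bot_iff, ← h0, ← h.uw]
    exact le_sup_left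
  · rintro V _ E W ⟨_, _, U, X, h⟩ a ha w hw
    have h1 : W.map a.toMonoidHom ≤ W := by
      rw [← h.uw, Subgroup.map_sup]
      apply sup_le
      · rintro _ ⟨u, hu, rfl⟩
        exact (le_sup_left : U ≤ U ⊔ X) (h.su a ha u hu)
      · rintro _ ⟨u, hu, rfl⟩
        exact (le_sup_right : X ≤ U ⊔ X) (h.sx a ha u hu)
    exact h1 ⟨w, hw, rfl⟩
  · rintro V V' _ _ E E' W π hQ ⟨hab, hc, U, X, h⟩
    have hinj : Function.Injective π.toMonoidHom := π.injective
    have hst : ∀ S : Subgroup V, (∀ a ∈ E, ∀ u ∈ S, a u ∈ S) → ∀ a ∈ E',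
        ∀ u ∈ S.map π.toMonoidHom, a u ∈ S.map π.toMonoidHom := by
      rintro S hS a' ha' _ ⟨u, hu, rfl⟩
      obtain ⟨a, ha, h1⟩ := hQ.lif a' ha'
      exact ⟨a u, hS a ha u hu, h1 u⟩
    have hker : π.toMonoidHom.ker = ⊥ := (MonoidHom.ker_eq_bot_iff _).2 hinj
    have hch := hM ℓ V V' E E' π.toMonoidHom hQ ⊤ W hc (by rw [hker]; exact bot_le)
    rw [Subgroup.map_top_of_surjective _ hQ.sur] at hch
    refine ⟨qr_comm hQ hab, hch, U.map π.toMonoidHom, X.map π.toMonoidHom, ?_, ?_, ?_,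
      hst U h.su, hst X h.sx, ?_⟩
    · rw [← Subgroup.map_inf _ _ _ hinj, h.ux, Subgroup.map_bot]
    · rw [← Subgroup.map_sup, h.uw]
    · intro h0
      exact h.nt ((Subgroup.map_eq_bot_iff_of_injective _ hinj).1 h0)
    · rintro a' ha' _ ⟨u, hu, rfl⟩ hu1 hfix _ ⟨w, hw, rfl⟩
      obtain ⟨a, ha, h1⟩ := hQ.lif a' ha'
      have h2 : a u = u := by
        apply hinj
        rw [h1]
        exact hfix
      have h3 : u ≠ 1 := by
        rintro rfl
        exact hu1 (map_one _)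
      rw [← h1, h.fr a ha u hu h3 h2 w hw]
  · rintro V V' _ _ _ _ E E' W π hp hE _ hQ ⟨hab, hc, U, X, h⟩ hker ⟨v, hv⟩
    have hab' := qr_comm hQ hab
    have hE' := qr_card hQ hl hE
    have hp' : IsPGroup ℓ V' := hp.of_surjective π hQ.sur
    have hch := hM ℓ V V' E E' π hQ ⊤ W hc hker.le
    have h4 : W.map π = ⊥ := by
      rw [eq_bot_iff]
      rintro _ ⟨w, hw, rfl⟩
      rw [← hker] at hw
      exact (MonoidHom.mem_ker).1 hw
    rw [Subgroup.map_top_of_surjective _ hQ.sur, h4] at hch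
    have h5 : (⊤ : Subgroup V') ≠ ⊥ := by
      intro h0
      apply hv
      have h6 : v ∈ (⊤ : Subgroup V') := Subgroup.mem_top v
      rw [h0] at h6
      exact (Subgroup.mem_bot).1 h6
    obtain ⟨W', U', X', k1, k2⟩ := hL ℓ V' E' hl hp' hE' ⊤ h5
      (fun _ _ _ _ => Subgroup.mem_top _) hch
    exact ⟨W', hab', k1, U', X', k2⟩

end Pool.Agent.PST.H77
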