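import Pool.Agent.PST.StmtsET1

/-!
Row DIF of table pst (squad PST, block ET): the differences of the images under two homomorphisms.
-/

noncomputable section

namespace Pool.Agent.PST.ET.H77

/-- DIF. -/
theorem dif : DifStmt := by
  intro r R S T _ _ _ _ _ i1 i2 τ hτ y
  have hy : y ∈ Algebra.adjoin R (Set.range τ) := by
    rw [hτ]
    exact Algebra.mem_top
  induction hy using Algebra.adjoin_induction with
  | mem x hx =>
    obtain ⟨i, rfl⟩ := hx
    exact Ideal.subset_span ⟨i, rfl⟩
  | algebraMap a =>
    rw [AlgHom.commutes, AlgHom.commutes, sub_self]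
    exact Ideal.zero_mem _
  | add x y _ _ hx hy =>
    have h : i1 (x + y) - i2 (x + y) = (i1 x - i2 x) + (i1 y - i2 y) := by
      rw [map_add, map_add]
      ring
    rw [h]
    exact Ideal.add_mem _ hx hy
  | mul x y _ _ hx hy =>
    have h : i1 (x * y) - i2 (x * y) = i1 x * (i1 y - i2 y) + i2 y * (i1 x - i2 x) := by
      rw [map_mul, map_mul]
      ring
    rw [h]
    exact Ideal.add_mem _ (Ideal.mul_mem_left _ _ hy) (Ideal.mul_mem_left _ _ hx)

end Pool.Agent.PST.ET.H77
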