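import Pool.Agent.PST.StmtsDR

/-!
# Squad PST, row GCM (helper77): `G u` commutes with `lf u` and with `γ W`
-/

set_option autoImplicit false

open scoped BigOperators PowerSeries

noncomputable section

namespace Pool.Agent.PST.H77G

theorem key {F A : Type} [Field F] [Ring A] [Algebra F⟦X⟧ A] [Module.Free F⟦X⟧ A]
    {g g' l G c : A} {ℓ : ℕ} (hg : g' * g = 1)
    (hl : l ^ ℓ = g * (1 + (PowerSeries.X : F⟦X⟧) • G)) (h1 : c * g = g * c)
    (h2 : c * l = l * c) : c * G = G * c := by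
  have h3 : c * l ^ ℓ = l ^ ℓ * c := (Commute.pow_right (h2 : Commute c l) ℓ)
  rw [hl, ← mul_assoc, h1, mul_assoc, mul_assoc] at h3
  have h4 : c * (1 + (PowerSeries.X : F⟦X⟧) • G) = (1 + (PowerSeries.X : F⟦X⟧) • G) * c := by
    have h5 := congrArg (fun t => g' * t) h3
    have h6 : ∀ z : A, g' * (g * z) = z := fun z => by rw [← mul_assoc, hg, one_mul]
    rw [h6] at h5
    exact h5.trans (h6 _)
  rw [mul_add, add_mul, mul_one, one_mul, add_right_inj, mul_smul_comm, smul_mul_assoc] at h4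
  exact smul_right_injective A PowerSeries.X_ne_zero h4

/-- GCM -/
theorem gcm : GcmStmt := by
  intro ℓ _ F V A As _ _ _ _ _ _ _ _ α W γ q D lf G hF u hu
  have hg : γ (⟨u ^ ℓ, hu⟩⁻¹ : W) * γ ⟨u ^ ℓ, hu⟩ = 1 := by
    rw [← map_mul, inv_mul_cancel, map_one]
  refine ⟨key hg (hF.pl u hu) (hF.cm u _).symm rfl, fun w => key hg (hF.pl u hu) ?_ (hF.cm u w)⟩
  rw [← map_mul, ← map_mul, mul_comm]

end Pool.Agent.PST.H77G
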